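import Mathlib

/-!
# Destroying all squares of the `n × n` board by removing unit segments

`f(1) = 1` and `f(n) = ⌈n²/2⌉ + 1` for all `n ≥ 2`, with an explicit optimal set.

Lower bound: every unit cell needs a removed segment, a segment lies on at most two cells, and the
outer boundary needs a removed segment, so `2|R| ≥ n² + 1`. If `n` is odd and equality holds, the
removed segments form a domino tiling of the board with one cell matched to the outside; a colour
count puts that cell in the majority class, and a staircase along the diagonal shows that the corner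
cells `(0,0)` and `(n-1,n-1)` are both matched to the outside, a contradiction.

Upper bound: a brick pattern in four triangles, sheared along one half-diagonal.
-/

set_option autoImplicit false

open Finset

namespace Pool.Agent.Results.MP_5493ad_co.AllBoards

/-- Unit segments: `inl (x, y)` is the horizontal segment from `(x, y)` to `(x + 1, y)`,
`inr (x, y)` is the vertical segment from `(x, y)` to `(x, y + 1)`. -/
abbrev Seg := (ℕ × ℕ) ⊕ (ℕ × ℕ)

/-- The horizontal segment from `(x, y)` to `(x + 1, y)`. -/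
abbrev hs (x y : ℕ) : Seg := Sum.inl (x, y)

/-- The vertical segment from `(x, y)` to `(x, y + 1)`. -/
abbrev vs (x y : ℕ) : Seg := Sum.inr (x, y)

/-- The set `E_n` of the `2n(n+1)` segments of the `n × n` board. -/
def board (n : ℕ) : Finset Seg := (range n ×ˢ range (n + 1)).disjSum (range (n + 1) ×ˢ range n)

/-- The segments of the boundary of the square `[a, a+k] × [b, b+k]`. -/
def square (a b k : ℕ) : Finset Seg :=
  (range k).biUnion fun i => {hs (a + i) b, hs (a + i) (b + k), vs a (b + i), vs (a + k) (b + i)}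

/-- `R` destroys all squares of the `n × n` board. -/
def Destroys (n : ℕ) (R : Finset Seg) : Prop :=
  ∀ a b k, 1 ≤ k → a + k ≤ n → b + k ≤ n → ∃ s ∈ R, s ∈ square a b k

/-- The minimum of `|R|` over all sets `R ⊆ E_n` that destroy all squares. -/
noncomputable def f (n : ℕ) : ℕ := sInf {m | ∃ R ⊆ board n, Destroys n R ∧ R.card = m}

/-- Horizontal segments of the pattern. -/
def Ph (N x y : ℕ) : Prop :=
  ((x + y) % 2 = 1 ∧ x + 1 ≤ y ∧ x + y ≤ N + 1) ∨ ((x + y) % 2 = 0 ∧ N ≤ x + y ∧ y ≤ x)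

/-- Vertical segments of the pattern. -/
def Pv (N x y : ℕ) : Prop :=
  ((x + y) % 2 = 0 ∧ y + 2 ≤ x ∧ x + y + 2 ≤ N) ∨ ((x + y) % 2 = 1 ∧ N + 3 ≤ x + y ∧ x + 1 ≤ y)

instance (N x y : ℕ) : Decidable (Ph N x y) := by unfold Ph; infer_instance
instance (N x y : ℕ) : Decidable (Pv N x y) := by unfold Pv; infer_instance

/-- The explicit optimal set, `n ≥ 2`; here `N = 2⌊n/2⌋`. -/
def opt (n : ℕ) : Finset Seg :=
  ((range n ×ˢ range (n + 1)).filter fun p => Ph (2 * (n / 2)) p.1 p.2).disjSum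
    ((range (n + 1) ×ˢ range n).filter fun p => Pv (2 * (n / 2)) p.1 p.2)

lemma mem_square {a b k : ℕ} {s : Seg} : s ∈ square a b k ↔ ∃ i < k, s = hs (a + i) b ∨
    s = hs (a + i) (b + k) ∨ s = vs a (b + i) ∨ s = vs (a + k) (b + i) := by
  simp [square]

/-- indicator -/
def ih (R : Finset Seg) (x y : ℕ) : ℕ := if hs x y ∈ R then 1 else 0
/-- indicator -/
def iv (R : Finset Seg) (x y : ℕ) : ℕ := if vs x y ∈ R then 1 else 0

lemma card_eq {n : ℕ} {R : Finset Seg} (hR : R ⊆ board n) :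
    R.card = ∑ x ∈ range n, ∑ y ∈ range (n + 1), ih R x y +
      ∑ y ∈ range n, ∑ x ∈ range (n + 1), iv R x y := by
  have h1 : R.card = ∑ s ∈ board n, if s ∈ R then 1 else 0 := by
    rw [← Finset.card_filter]
    congr 1
    ext s
    simp only [mem_filter]
    exact ⟨fun h => ⟨hR h, h⟩, fun h => h.2⟩
  rw [h1, board, Finset.sum_disjSum, Finset.sum_product, Finset.sum_product_right]
  rfl

/-- The number of removed segments of the unit cell `(x, y)`. -/
def cover (R : Finset Seg) (x y : ℕ) : ℕ := ih R x y + ih R x (y + 1) + (iv R x y + iv R (x + 1) y)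

/-- The number of removed segments on the outer boundary. -/
def bdry (n : ℕ) (R : Finset Seg) : ℕ :=
  ∑ x ∈ range n, (ih R x 0 + ih R x n) + ∑ y ∈ range n, (iv R 0 y + iv R n y)

lemma sum_pair (g : ℕ → ℕ) (n : ℕ) :
    ∑ y ∈ range n, (g y + g (y + 1)) + (g 0 + g n) = 2 * ∑ y ∈ range (n + 1), g y := by
  rw [Finset.sum_add_distrib]
  have h1 := Finset.sum_range_succ g n
  have h2 := Finset.sum_range_succ' g n
  omega

lemma two_card {n : ℕ} {R : Finset Seg} (hR : R ⊆ board n) :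
    ∑ x ∈ range n, ∑ y ∈ range n, cover R x y + bdry n R = 2 * R.card := by
  have h1 : ∑ x ∈ range n, ∑ y ∈ range n, (ih R x y + ih R x (y + 1)) +
      ∑ x ∈ range n, (ih R x 0 + ih R x n) = 2 * ∑ x ∈ range n, ∑ y ∈ range (n + 1), ih R x y := by
    rw [← Finset.sum_add_distrib, Finset.mul_sum]
    exact Finset.sum_congr rfl fun x _ => sum_pair (fun y => ih R x y) n
  have h2 : ∑ y ∈ range n, ∑ x ∈ range n, (iv R x y + iv R (x + 1) y) +
      ∑ y ∈ range n, (iv R 0 y + iv R n y) = 2 * ∑ y ∈ range n, ∑ x ∈ range (n + 1), iv R x y := by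
    rw [← Finset.sum_add_distrib, Finset.mul_sum]
    exact Finset.sum_congr rfl fun y _ => sum_pair (fun x => iv R x y) n
  have h3 : ∑ x ∈ range n, ∑ y ∈ range n, cover R x y =
      ∑ x ∈ range n, ∑ y ∈ range n, (ih R x y + ih R x (y + 1)) +
      ∑ y ∈ range n, ∑ x ∈ range n, (iv R x y + iv R (x + 1) y) := by
    rw [Finset.sum_comm (s := range n) (t := range n) (f := fun y x => iv R x y + iv R (x + 1) y),
      ← Finset.sum_add_distrib]
    refine Finset.sum_congr rfl fun x _ => ?_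
    rw [← Finset.sum_add_distrib]
    rfl
  rw [card_eq hR, h3]
  unfold bdry
  omega

/-! ### Lower bound -/

lemma ih_le (R : Finset Seg) (x y : ℕ) : ih R x y ≤ 1 := by unfold ih; split_ifs <;> omega
lemma iv_le (R : Finset Seg) (x y : ℕ) : iv R x y ≤ 1 := by unfold iv; split_ifs <;> omega
lemma ih_one {R : Finset Seg} {x y : ℕ} : ih R x y = 1 ↔ hs x y ∈ R := by
  unfold ih; split_ifs with h <;> simp [h]
lemma iv_one {R : Finset Seg} {x y : ℕ} : iv R x y = 1 ↔ vs x y ∈ R := by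
  unfold iv; split_ifs with h <;> simp [h]

lemma cover_pos {n : ℕ} {R : Finset Seg} (hD : Destroys n R) {x y : ℕ} (hx : x < n) (hy : y < n) :
    1 ≤ cover R x y := by
  obtain ⟨s, hs, hsq⟩ := hD x y 1 le_rfl hx hy
  rw [mem_square] at hsq
  obtain ⟨i, hi, hc⟩ := hsq
  have hi0 : i = 0 := by omega
  subst hi0
  simp only [add_zero] at hc
  unfold cover
  rcases hc with rfl | rfl | rfl | rfl
  · have := ih_one.2 hs; omega
  · have := ih_one.2 hs; omega
  · have := iv_one.2 hs; omega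
  · have := iv_one.2 hs; omega

lemma bdry_pos {n : ℕ} (hn : 1 ≤ n) {R : Finset Seg} (hD : Destroys n R) : 1 ≤ bdry n R := by
  obtain ⟨s, hs, hsq⟩ := hD 0 0 n hn (by omega) (by omega)
  rw [mem_square] at hsq
  obtain ⟨i, hi, hc⟩ := hsq
  simp only [zero_add] at hc
  have e1 : ih R i 0 + ih R i n ≤ ∑ x ∈ range n, (ih R x 0 + ih R x n) :=
    Finset.single_le_sum (f := fun x => ih R x 0 + ih R x n) (fun _ _ => Nat.zero_le _)
      (mem_range.2 hi)
  have e2 : iv R 0 i + iv R n i ≤ ∑ y ∈ range n, (iv R 0 y + iv R n y) :=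
    Finset.single_le_sum (f := fun y => iv R 0 y + iv R n y) (fun _ _ => Nat.zero_le _)
      (mem_range.2 hi)
  unfold bdry
  rcases hc with rfl | rfl | rfl | rfl
  · have := ih_one.2 hs; omega
  · have := ih_one.2 hs; omega
  · have := iv_one.2 hs; omega
  · have := iv_one.2 hs; omega

lemma lower_basic {n : ℕ} (hn : 1 ≤ n) {R : Finset Seg} (hR : R ⊆ board n) (hD : Destroys n R) :
    n ^ 2 + 1 ≤ 2 * R.card := by
  have h1 := two_card hR
  have h2 := bdry_pos hn hD
  have h3 : n ^ 2 ≤ ∑ x ∈ range n, ∑ y ∈ range n, cover R x y := by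
    calc n ^ 2 = ∑ x ∈ range n, ∑ y ∈ range n, 1 := by simp [sq]
      _ ≤ _ := Finset.sum_le_sum fun x hx => Finset.sum_le_sum fun y hy =>
        cover_pos hD (mem_range.1 hx) (mem_range.1 hy)
  omega

lemma alt_pair (g : ℕ → ℤ) (n : ℕ) :
    ∑ y ∈ range n, (-1 : ℤ) ^ y * (g y + g (y + 1)) = g 0 - (-1) ^ n * g n := by
  induction n with
  | zero => simp
  | succ n ih =>
    rw [Finset.sum_range_succ, ih, pow_succ]
    ring

lemma alt_one {n : ℕ} (hn : n % 2 = 1) : ∑ x ∈ range n, (-1 : ℤ) ^ x = 1 := by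
  obtain ⟨m, rfl⟩ : ∃ m, n = 2 * m + 1 := ⟨n / 2, by omega⟩
  induction m with
  | zero => simp
  | succ m ih =>
    rw [show 2 * (m + 1) + 1 = 2 * m + 1 + 1 + 1 by ring, Finset.sum_range_succ,
      Finset.sum_range_succ, ih (by omega), pow_succ]
    ring

lemma signed {n : ℕ} (hn : n % 2 = 1) (R : Finset Seg) :
    ∑ x ∈ range n, ∑ y ∈ range n, (-1 : ℤ) ^ (x + y) * (cover R x y : ℤ) =
      ∑ x ∈ range n, (-1 : ℤ) ^ x * ((ih R x 0 : ℤ) + ih R x n) +
      ∑ y ∈ range n, (-1 : ℤ) ^ y * ((iv R 0 y : ℤ) + iv R n y) := by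
  have hodd : (-1 : ℤ) ^ n = -1 := Odd.neg_one_pow (Nat.odd_iff.2 hn)
  have h1 : ∑ x ∈ range n, ∑ y ∈ range n, (-1 : ℤ) ^ (x + y) * (cover R x y : ℤ) =
      ∑ x ∈ range n, ∑ y ∈ range n, (-1 : ℤ) ^ x * ((-1 : ℤ) ^ y * ((ih R x y : ℤ) + ih R x (y + 1)))
      + ∑ x ∈ range n, ∑ y ∈ range n,
        (-1 : ℤ) ^ y * ((-1 : ℤ) ^ x * ((iv R x y : ℤ) + iv R (x + 1) y)) := by
    rw [← Finset.sum_add_distrib]
    refine Finset.sum_congr rfl fun x _ => ?_
    rw [← Finset.sum_add_distrib]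
    refine Finset.sum_congr rfl fun y _ => ?_
    unfold cover
    push_cast
    rw [pow_add]
    ring
  rw [h1]
  congr 1
  · refine Finset.sum_congr rfl fun x _ => ?_
    rw [← Finset.mul_sum, alt_pair (fun y => (ih R x y : ℤ)) n, hodd]
    ring
  · rw [Finset.sum_comm]
    refine Finset.sum_congr rfl fun y _ => ?_
    rw [← Finset.mul_sum, alt_pair (fun x => (iv R x y : ℤ)) n, hodd]
    ring

/-- In an exact cover of an odd board with one boundary segment, this segment belongs to a cell of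
the majority class. -/
lemma bd_odd {n : ℕ} (hn : n % 2 = 1) {R : Finset Seg}
    (hc : ∀ x < n, ∀ y < n, cover R x y = 1) (hb : bdry n R = 1) (x : ℕ) (hx : x < n)
    (hxo : x % 2 = 1) : ih R x 0 = 0 ∧ ih R x n = 0 ∧ iv R 0 x = 0 ∧ iv R n x = 0 := by
  have h1 := signed hn R
  have h2 : ∑ x ∈ range n, ∑ y ∈ range n, (-1 : ℤ) ^ (x + y) * (cover R x y : ℤ) = 1 := by
    have : ∑ x ∈ range n, ∑ y ∈ range n, (-1 : ℤ) ^ (x + y) * (cover R x y : ℤ) =
        ∑ x ∈ range n, (-1 : ℤ) ^ x * ∑ y ∈ range n, (-1 : ℤ) ^ y := by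
      refine Finset.sum_congr rfl fun x hx => ?_
      rw [Finset.mul_sum]
      refine Finset.sum_congr rfl fun y hy => ?_
      rw [hc x (mem_range.1 hx) y (mem_range.1 hy), pow_add]
      simp
    rw [this, alt_one hn]
    simp [alt_one hn]
  rw [h2] at h1
  have h3 : (∑ x ∈ range n, ((ih R x 0 : ℤ) + ih R x n) +
      ∑ y ∈ range n, ((iv R 0 y : ℤ) + iv R n y)) = 1 := by
    have := hb
    unfold bdry at this
    exact_mod_cast this
  have hnn : ∀ z ∈ range n, 0 ≤ (1 - (-1 : ℤ) ^ z) * ((ih R z 0 : ℤ) + ih R z n) +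
      (1 - (-1 : ℤ) ^ z) * ((iv R 0 z : ℤ) + iv R n z) := by
    intro z _
    rcases neg_one_pow_eq_or ℤ z with h | h <;> rw [h] <;> simp <;> positivity
  have h4 : ∑ z ∈ range n, ((1 - (-1 : ℤ) ^ z) * ((ih R z 0 : ℤ) + ih R z n) +
      (1 - (-1 : ℤ) ^ z) * ((iv R 0 z : ℤ) + iv R n z)) = 0 := by
    rw [Finset.sum_add_distrib]
    have e1 : ∑ z ∈ range n, (1 - (-1 : ℤ) ^ z) * ((ih R z 0 : ℤ) + ih R z n) =
        ∑ z ∈ range n, ((ih R z 0 : ℤ) + ih R z n) -
          ∑ z ∈ range n, (-1 : ℤ) ^ z * ((ih R z 0 : ℤ) + ih R z n) := by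
      rw [← Finset.sum_sub_distrib]
      exact Finset.sum_congr rfl fun z _ => by ring
    have e2 : ∑ z ∈ range n, (1 - (-1 : ℤ) ^ z) * ((iv R 0 z : ℤ) + iv R n z) =
        ∑ z ∈ range n, ((iv R 0 z : ℤ) + iv R n z) -
          ∑ z ∈ range n, (-1 : ℤ) ^ z * ((iv R 0 z : ℤ) + iv R n z) := by
      rw [← Finset.sum_sub_distrib]
      exact Finset.sum_congr rfl fun z _ => by ring
    rw [e1, e2]
    linarith
  have h5 := (Finset.sum_eq_zero_iff_of_nonneg hnn).1 h4 x (mem_range.2 hx)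
  have h6 : (-1 : ℤ) ^ x = -1 := Odd.neg_one_pow (Nat.odd_iff.2 hxo)
  rw [h6] at h5
  omega

/-- The data of a hypothetical exact cover. -/
structure Exact (n : ℕ) (H V : ℕ → ℕ → Prop) : Prop where
  some : ∀ x y, x < n → y < n → H x y ∨ H x (y + 1) ∨ V x y ∨ V (x + 1) y
  hh : ∀ x y, x < n → y < n → H x y → H x (y + 1) → False
  vv : ∀ x y, x < n → y < n → V x y → V (x + 1) y → False
  bl : ∀ x y, x < n → y < n → H x y → V x y → False
  br : ∀ x y, x < n → y < n → H x y → V (x + 1) y → False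
  tl : ∀ x y, x < n → y < n → H x (y + 1) → V x y → False
  tr : ∀ x y, x < n → y < n → H x (y + 1) → V (x + 1) y → False
  block : ∀ x y, x + 2 ≤ n → y + 2 ≤ n → H x y ∨ H (x + 1) y ∨ H x (y + 2) ∨ H (x + 1) (y + 2) ∨
    V x y ∨ V x (y + 1) ∨ V (x + 2) y ∨ V (x + 2) (y + 1)
  bd : ∀ x, x < n → x % 2 = 1 → ¬ H x 0 ∧ ¬ H x n ∧ ¬ V 0 x ∧ ¬ V n x

namespace Exact

variable {n : ℕ} {H V : ℕ → ℕ → Prop}

lemma transpose (E : Exact n H V) : Exact n (fun x y => V y x) (fun x y => H y x) where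
  some x y hx hy := by rcases E.some y x hy hx with h | h | h | h <;> simp [h]
  hh x y hx hy h1 h2 := E.vv y x hy hx h1 h2
  vv x y hx hy h1 h2 := E.hh y x hy hx h1 h2
  bl x y hx hy h1 h2 := E.bl y x hy hx h2 h1
  br x y hx hy h1 h2 := E.tl y x hy hx h2 h1
  tl x y hx hy h1 h2 := E.br y x hy hx h2 h1
  tr x y hx hy h1 h2 := E.tr y x hy hx h2 h1
  block x y hx hy := by
    rcases E.block y x hy hx with h | h | h | h | h | h | h | h <;> simp [h]
  bd x hx hxo := by
    obtain ⟨h1, h2, h3, h4⟩ := E.bd x hx hxo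
    exact ⟨h3, h4, h1, h2⟩

lemma rotate (E : Exact n H V) (hn : n % 2 = 1) :
    Exact n (fun x y => H (n - 1 - x) (n - y)) (fun x y => V (n - x) (n - 1 - y)) where
  some x y hx hy := by
    have e1 : n - (y + 1) = n - 1 - y := by omega
    have e2 : n - y = n - 1 - y + 1 := by omega
    have e3 : n - (x + 1) = n - 1 - x := by omega
    have e4 : n - x = n - 1 - x + 1 := by omega
    simp only [e1, e2, e3, e4]
    rcases E.some (n - 1 - x) (n - 1 - y) (by omega) (by omega) with h | h | h | h <;> simp [h]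
  hh x y hx hy h1 h2 := by
    have e1 : n - (y + 1) = n - 1 - y := by omega
    have e2 : n - y = n - 1 - y + 1 := by omega
    simp only [e1, e2] at h1 h2
    exact E.hh _ _ (by omega) (by omega) h2 h1
  vv x y hx hy h1 h2 := by
    have e3 : n - (x + 1) = n - 1 - x := by omega
    have e4 : n - x = n - 1 - x + 1 := by omega
    simp only [e3, e4] at h1 h2
    exact E.vv _ _ (by omega) (by omega) h2 h1
  bl x y hx hy h1 h2 := by
    have e2 : n - y = n - 1 - y + 1 := by omega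
    have e4 : n - x = n - 1 - x + 1 := by omega
    simp only [e2, e4] at h1 h2
    exact E.tr _ _ (by omega) (by omega) h1 h2
  br x y hx hy h1 h2 := by
    have e2 : n - y = n - 1 - y + 1 := by omega
    have e3 : n - (x + 1) = n - 1 - x := by omega
    simp only [e2, e3] at h1 h2
    exact E.tl _ _ (by omega) (by omega) h1 h2
  tl x y hx hy h1 h2 := by
    have e1 : n - (y + 1) = n - 1 - y := by omega
    have e4 : n - x = n - 1 - x + 1 := by omega
    simp only [e1, e4] at h1 h2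
    exact E.br _ _ (by omega) (by omega) h1 h2
  tr x y hx hy h1 h2 := by
    have e1 : n - (y + 1) = n - 1 - y := by omega
    have e3 : n - (x + 1) = n - 1 - x := by omega
    simp only [e1, e3] at h1 h2
    exact E.bl _ _ (by omega) (by omega) h1 h2
  block x y hx hy := by
    have e1 : n - y = n - 2 - y + 2 := by omega
    have e2 : n - (y + 2) = n - 2 - y := by omega
    have e3 : n - 1 - y = n - 2 - y + 1 := by omega
    have e4 : n - 1 - (y + 1) = n - 2 - y := by omega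
    have e5 : n - x = n - 2 - x + 2 := by omega
    have e6 : n - (x + 2) = n - 2 - x := by omega
    have e7 : n - 1 - x = n - 2 - x + 1 := by omega
    have e8 : n - 1 - (x + 1) = n - 2 - x := by omega
    simp only [e1, e2, e3, e4, e5, e6, e7, e8]
    rcases E.block (n - 2 - x) (n - 2 - y) (by omega) (by omega) with
      h | h | h | h | h | h | h | h <;> simp [h]
  bd x hx hxo := by
    obtain ⟨h1, h2, h3, h4⟩ := E.bd (n - 1 - x) (by omega) (by omega)
    simp only [Nat.sub_zero, Nat.sub_self]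
    exact ⟨h2, h1, h4, h3⟩

lemma noV (E : Exact n H V) {x y : ℕ} (hx : x + 2 ≤ n) (hy : y + 2 ≤ n) (h1 : V (x + 1) y)
    (h2 : V (x + 1) (y + 1)) : False := by
  rcases E.block x y hx hy with h | h | h | h | h | h | h | h
  · exact E.br x y (by omega) (by omega) h h1
  · exact E.bl (x + 1) y (by omega) (by omega) h h1
  · exact E.tr x (y + 1) (by omega) (by omega) h h2
  · exact E.tl (x + 1) (y + 1) (by omega) (by omega) h h2
  · exact E.vv x y (by omega) (by omega) h h1
  · exact E.vv x (y + 1) (by omega) (by omega) h h2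
  · exact E.vv (x + 1) y (by omega) (by omega) h1 h
  · exact E.vv (x + 1) (y + 1) (by omega) (by omega) h2 h

lemma noH (E : Exact n H V) {x y : ℕ} (hx : x + 2 ≤ n) (hy : y + 2 ≤ n) (h1 : H x (y + 1))
    (h2 : H (x + 1) (y + 1)) : False :=
  E.transpose.noV hy hx h1 h2

/-- The staircase. -/
lemma stair (E : Exact n H V) (h0 : V 1 0) :
    ∀ i, i + 2 ≤ n → V (i + 1) i ∧ H i (i + 2) := by
  intro i
  induction i with
  | zero =>
    intro hi
    refine ⟨h0, ?_⟩
    rcases E.some 0 1 (by omega) (by omega) with h | h | h | h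
    · exact absurd h (fun h => E.tr 0 0 (by omega) (by omega) h h0)
    · exact h
    · exact absurd h (E.bd 1 (by omega) (by norm_num)).2.2.1
    · exact absurd h (fun h => E.noV (by omega) (by omega) h0 h)
  | succ i ih =>
    intro hi
    obtain ⟨hA, hB⟩ := ih (by omega)
    have hA' : V (i + 1 + 1) (i + 1) := by
      rcases E.some (i + 1) (i + 1) (by omega) (by omega) with h | h | h | h
      · exact absurd h (fun h => E.tl (i + 1) i (by omega) (by omega) h hA)
      · exact absurd h (fun h => E.noH (x := i) (y := i + 1) (by omega) (by omega) hB h)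
      · exact absurd h (fun h => E.tr i (i + 1) (by omega) (by omega) hB h)
      · exact h
    refine ⟨hA', ?_⟩
    rcases E.some (i + 1) (i + 2) (by omega) (by omega) with h | h | h | h
    · exact absurd h (fun h => E.tr (i + 1) (i + 1) (by omega) (by omega) h hA')
    · exact h
    · exact absurd h (fun h => E.br i (i + 2) (by omega) (by omega) hB h)
    · exact absurd h (fun h => E.noV (x := i + 1) (y := i + 1) (by omega) (by omega) hA' h)

lemma not_V (E : Exact n H V) (hn : n % 2 = 1) (h3 : 3 ≤ n) : ¬ V 1 0 := by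
  intro h0
  have h := (E.stair h0 (n - 2) (by omega)).2
  rw [show n - 2 + 2 = n by omega] at h
  exact (E.bd (n - 2) (by omega) (by omega)).2.1 h

lemma corner (E : Exact n H V) (hn : n % 2 = 1) (h3 : 3 ≤ n) : H 0 0 ∨ V 0 0 := by
  rcases E.some 0 0 (by omega) (by omega) with h | h | h | h
  · exact Or.inl h
  · exact absurd h (E.transpose.not_V hn h3)
  · exact Or.inr h
  · exact absurd h (E.not_V hn h3)

lemma corner' (E : Exact n H V) (hn : n % 2 = 1) (h3 : 3 ≤ n) :
    H (n - 1) n ∨ V n (n - 1) := by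
  have := (E.rotate hn).corner hn h3
  simpa using this

end Exact

lemma exact_of {n : ℕ} (hn : n % 2 = 1) {R : Finset Seg} (hD : Destroys n R)
    (hc : ∀ x < n, ∀ y < n, cover R x y = 1) (hb : bdry n R = 1) :
    Exact n (fun x y => hs x y ∈ R) (fun x y => vs x y ∈ R) where
  some x y hx hy := by
    have h := hc x hx y hy
    by_contra hno
    push Not at hno
    obtain ⟨h1, h2, h3, h4⟩ := hno
    simp [cover, ih, iv, h1, h2, h3, h4] at h
  hh x y hx hy h1 h2 := by
    have h := hc x hx y hy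
    rw [← ih_one] at h1 h2
    unfold cover at h
    omega
  vv x y hx hy h1 h2 := by
    have h := hc x hx y hy
    rw [← iv_one] at h1 h2
    unfold cover at h
    omega
  bl x y hx hy h1 h2 := by
    have h := hc x hx y hy
    rw [← ih_one] at h1
    rw [← iv_one] at h2
    unfold cover at h
    omega
  br x y hx hy h1 h2 := by
    have h := hc x hx y hy
    rw [← ih_one] at h1
    rw [← iv_one] at h2
    unfold cover at h
    omega
  tl x y hx hy h1 h2 := by
    have h := hc x hx y hy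
    rw [← ih_one] at h1
    rw [← iv_one] at h2
    unfold cover at h
    omega
  tr x y hx hy h1 h2 := by
    have h := hc x hx y hy
    rw [← ih_one] at h1
    rw [← iv_one] at h2
    unfold cover at h
    omega
  block x y hx hy := by
    obtain ⟨s, hs', hsq⟩ := hD x y 2 (by norm_num) hx hy
    rw [mem_square] at hsq
    obtain ⟨i, hi, hcc⟩ := hsq
    interval_cases i
    · rcases hcc with rfl | rfl | rfl | rfl <;> simp only [add_zero] at hs' <;> simp [hs']
    · rcases hcc with rfl | rfl | rfl | rfl <;> simp [hs']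
  bd x hx hxo := by
    obtain ⟨h1, h2, h3, h4⟩ := bd_odd hn hc hb x hx hxo
    simp only [← ih_one, ← iv_one]
    omega

lemma lower {n : ℕ} (hn : 2 ≤ n) {R : Finset Seg} (hR : R ⊆ board n) (hD : Destroys n R) :
    (n ^ 2 + 1) / 2 + 1 ≤ R.card := by
  have h1 := lower_basic (by omega) hR hD
  rcases Nat.mod_two_eq_zero_or_one n with he | ho
  · obtain ⟨m, rfl⟩ : ∃ m, n = 2 * m := ⟨n / 2, by omega⟩
    have : (2 * m) ^ 2 = 2 * (2 * m ^ 2) := by ring
    omega
  · by_contra hlt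
    have h3 : 3 ≤ n := by omega
    have hsq : ∃ c, n ^ 2 = 2 * c + 1 := by
      obtain ⟨m, rfl⟩ : ∃ m, n = 2 * m + 1 := ⟨n / 2, by omega⟩
      exact ⟨2 * m ^ 2 + 2 * m, by ring⟩
    obtain ⟨c, hcn⟩ := hsq
    have hcard : 2 * R.card = n ^ 2 + 1 := by omega
    have h2 := two_card hR
    have hbp := bdry_pos (by omega : 1 ≤ n) hD
    have h4 : ∑ x ∈ range n, ∑ y ∈ range n, 1 ≤ ∑ x ∈ range n, ∑ y ∈ range n, cover R x y :=
      Finset.sum_le_sum fun x hx => Finset.sum_le_sum fun y hy =>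
        cover_pos hD (mem_range.1 hx) (mem_range.1 hy)
    have h5 : ∑ x ∈ range n, ∑ y ∈ range n, 1 = n ^ 2 := by simp [sq]
    have hb : bdry n R = 1 := by omega
    have h6 : ∑ x ∈ range n, ∑ y ∈ range n, 1 = ∑ x ∈ range n, ∑ y ∈ range n, cover R x y := by
      omega
    have hc : ∀ x < n, ∀ y < n, cover R x y = 1 := by
      intro x hx y hy
      have h7 := (Finset.sum_eq_sum_iff_of_le (fun x hx => Finset.sum_le_sum fun y hy =>
        cover_pos hD (mem_range.1 hx) (mem_range.1 hy))).1 h6 x (mem_range.2 hx)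
      have h8 := (Finset.sum_eq_sum_iff_of_le (fun y hy =>
        cover_pos hD hx (mem_range.1 hy))).1 h7 y (mem_range.2 hy)
      exact h8.symm
    have E := exact_of ho hD hc hb
    have c1 := E.corner ho h3
    have c2 := E.corner' ho h3
    -- two boundary segments
    have e1 : ∀ i j, i < n → j < n → i ≠ j →
        (ih R i 0 + ih R i n) + (ih R j 0 + ih R j n) ≤ ∑ x ∈ range n, (ih R x 0 + ih R x n) := by
      intro i j hi hj hij
      calc (ih R i 0 + ih R i n) + (ih R j 0 + ih R j n)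
          = ∑ x ∈ ({i, j} : Finset ℕ), (ih R x 0 + ih R x n) := by
            rw [Finset.sum_pair hij]
        _ ≤ _ := Finset.sum_le_sum_of_subset (by
            intro z hz
            simp only [mem_insert, mem_singleton] at hz
            rcases hz with rfl | rfl <;> simpa)
    have e2 : ∀ i j, i < n → j < n → i ≠ j →
        (iv R 0 i + iv R n i) + (iv R 0 j + iv R n j) ≤ ∑ x ∈ range n, (iv R 0 x + iv R n x) := by
      intro i j hi hj hij
      calc (iv R 0 i + iv R n i) + (iv R 0 j + iv R n j)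
          = ∑ x ∈ ({i, j} : Finset ℕ), (iv R 0 x + iv R n x) := by
            rw [Finset.sum_pair hij]
        _ ≤ _ := Finset.sum_le_sum_of_subset (by
            intro z hz
            simp only [mem_insert, mem_singleton] at hz
            rcases hz with rfl | rfl <;> simpa)
    have g1 := e1 0 (n - 1) (by omega) (by omega) (by omega)
    have g2 := e2 0 (n - 1) (by omega) (by omega) (by omega)
    unfold bdry at hb
    simp only [← ih_one, ← iv_one] at c1 c2
    omega

/-! ### Upper bound -/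

lemma mem_opt_h {n x y : ℕ} : hs x y ∈ opt n ↔ x < n ∧ y < n + 1 ∧ Ph (2 * (n / 2)) x y := by
  simp [opt, and_assoc]

lemma mem_opt_v {n x y : ℕ} : vs x y ∈ opt n ↔ x < n + 1 ∧ y < n ∧ Pv (2 * (n / 2)) x y := by
  simp [opt, and_assoc]

lemma opt_sub (n : ℕ) : opt n ⊆ board n := by
  intro s hs
  rcases s with ⟨x, y⟩ | ⟨x, y⟩
  · obtain ⟨h1, h2, -⟩ := mem_opt_h.1 hs
    simp only [board, inl_mem_disjSum, mem_product, mem_range]
    exact ⟨h1, h2⟩
  · obtain ⟨h1, h2, -⟩ := mem_opt_v.1 hs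
    simp only [board, inr_mem_disjSum, mem_product, mem_range]
    exact ⟨h1, h2⟩

lemma ih_opt {n x y : ℕ} (hx : x < n) (hy : y ≤ n) :
    ih (opt n) x y = if Ph (2 * (n / 2)) x y then 1 else 0 := by
  unfold ih
  simp only [mem_opt_h, hx, Nat.lt_succ_of_le hy, true_and]

lemma iv_opt {n x y : ℕ} (hx : x ≤ n) (hy : y < n) :
    iv (opt n) x y = if Pv (2 * (n / 2)) x y then 1 else 0 := by
  unfold iv
  simp only [mem_opt_v, hy, Nat.lt_succ_of_le hx, true_and]

lemma hite (P : Prop) [Decidable P] :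
    (P ∧ (if P then (1 : ℕ) else 0) = 1) ∨ (¬ P ∧ (if P then (1 : ℕ) else 0) = 0) := by
  by_cases h : P <;> simp [h]

lemma cover_opt {n x y : ℕ} (hx : x < n) (hy : y < n) :
    cover (opt n) x y = 1 + if x = n / 2 ∧ y = n / 2 then 1 else 0 := by
  unfold cover
  rw [ih_opt hx hy.le, ih_opt hx (by omega), iv_opt hx.le hy, iv_opt (by omega) hy]
  have hN : 2 * (n / 2) ≤ n ∧ n ≤ 2 * (n / 2) + 1 := by omega
  generalize n / 2 = m at *
  rcases Nat.mod_two_eq_zero_or_one (x + y) with h | h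
  · have e2 : (x + (y + 1)) % 2 = 1 := by omega
    have e3 : (x + 1 + y) % 2 = 1 := by omega
    simp only [Ph, Pv, h, e2, e3, zero_ne_one, one_ne_zero, false_and, true_and, or_false,
      false_or]
    rcases hite (2 * m ≤ x + y ∧ y ≤ x) with ⟨q1, r1⟩ | ⟨q1, r1⟩ <;>
    rcases hite (x + 1 ≤ y + 1 ∧ x + (y + 1) ≤ 2 * m + 1) with ⟨q2, r2⟩ | ⟨q2, r2⟩ <;>
    rcases hite (y + 2 ≤ x ∧ x + y + 2 ≤ 2 * m) with ⟨q3, r3⟩ | ⟨q3, r3⟩ <;>
    rcases hite (2 * m + 3 ≤ x + 1 + y ∧ x + 1 + 1 ≤ y) with ⟨q4, r4⟩ | ⟨q4, r4⟩ <;>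
    rcases hite (x = m ∧ y = m) with ⟨q5, r5⟩ | ⟨q5, r5⟩ <;>
    rw [r1, r2, r3, r4, r5] <;> omega
  · have e2 : (x + (y + 1)) % 2 = 0 := by omega
    have e3 : (x + 1 + y) % 2 = 0 := by omega
    simp only [Ph, Pv, h, e2, e3, zero_ne_one, one_ne_zero, false_and, true_and, or_false,
      false_or]
    rcases hite (x + 1 ≤ y ∧ x + y ≤ 2 * m + 1) with ⟨q1, r1⟩ | ⟨q1, r1⟩ <;>
    rcases hite (2 * m ≤ x + (y + 1) ∧ y + 1 ≤ x) with ⟨q2, r2⟩ | ⟨q2, r2⟩ <;>
    rcases hite (2 * m + 3 ≤ x + y ∧ x + 1 ≤ y) with ⟨q3, r3⟩ | ⟨q3, r3⟩ <;>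
    rcases hite (y + 2 ≤ x + 1 ∧ x + 1 + y + 2 ≤ 2 * m) with ⟨q4, r4⟩ | ⟨q4, r4⟩ <;>
    rcases hite (x = m ∧ y = m) with ⟨q5, r5⟩ | ⟨q5, r5⟩ <;>
    rw [r1, r2, r3, r4, r5] <;> omega

lemma bdry_opt {n : ℕ} (hn : 2 ≤ n) : bdry n (opt n) = 1 + n % 2 := by
  unfold bdry
  have h1 : ∀ x ∈ range n, ih (opt n) x 0 + ih (opt n) x n =
      (if x = 1 - n % 2 then 1 else 0) + (if x = n - 1 then n % 2 else 0) := by
    intro x hx
    rw [mem_range] at hx
    rw [ih_opt hx (by omega), ih_opt hx le_rfl]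
    have e : (if x = n - 1 then n % 2 else 0) = (if x = n - 1 then 1 else 0) * (n % 2) := by
      split_ifs <;> simp
    rw [e]
    rcases hite (Ph (2 * (n / 2)) x 0) with ⟨q1, r1⟩ | ⟨q1, r1⟩ <;>
    rcases hite (Ph (2 * (n / 2)) x n) with ⟨q2, r2⟩ | ⟨q2, r2⟩ <;>
    rcases hite (x = 1 - n % 2) with ⟨q3, r3⟩ | ⟨q3, r3⟩ <;>
    rcases hite (x = n - 1) with ⟨q4, r4⟩ | ⟨q4, r4⟩ <;>
    rw [r1, r2, r3, r4] <;> unfold Ph at q1 q2 <;> omega
  have h2 : ∀ y ∈ range n, iv (opt n) 0 y + iv (opt n) n y = 0 := by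
    intro y hy
    rw [mem_range] at hy
    rw [iv_opt (by omega) hy, iv_opt le_rfl hy]
    rcases hite (Pv (2 * (n / 2)) 0 y) with ⟨q1, r1⟩ | ⟨q1, r1⟩ <;>
    rcases hite (Pv (2 * (n / 2)) n y) with ⟨q2, r2⟩ | ⟨q2, r2⟩ <;>
    rw [r1, r2] <;> unfold Pv at q1 q2 <;> omega
  rw [Finset.sum_congr rfl h1, Finset.sum_congr rfl h2, Finset.sum_add_distrib,
    Finset.sum_ite_eq', Finset.sum_ite_eq']
  simp only [mem_range, sum_const_zero]
  rw [if_pos (by omega), if_pos (by omega), add_zero]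

lemma card_opt {n : ℕ} (hn : 2 ≤ n) : (opt n).card = (n ^ 2 + 1) / 2 + 1 := by
  have h1 := two_card (opt_sub n)
  rw [bdry_opt hn] at h1
  have h2 : ∑ x ∈ range n, ∑ y ∈ range n, cover (opt n) x y = n ^ 2 + 1 := by
    have e1 : ∀ x ∈ range n, ∑ y ∈ range n, cover (opt n) x y =
        n + if x = n / 2 then 1 else 0 := by
      intro x hx
      have e2 : ∀ y ∈ range n, cover (opt n) x y =
          1 + if y = n / 2 then (if x = n / 2 then 1 else 0) else 0 := by
        intro y hy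
        rw [cover_opt (mem_range.1 hx) (mem_range.1 hy)]
        congr 1
        split_ifs <;> first | rfl | omega
      rw [Finset.sum_congr rfl e2, Finset.sum_add_distrib, Finset.sum_ite_eq']
      simp only [sum_const, card_range, smul_eq_mul, mul_one, mem_range]
      rw [if_pos (by omega : n / 2 < n)]
    rw [Finset.sum_congr rfl e1, Finset.sum_add_distrib, Finset.sum_ite_eq']
    simp only [sum_const, card_range, smul_eq_mul, mem_range]
    rw [if_pos (by omega : n / 2 < n)]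
    ring
  rw [h2] at h1
  rcases Nat.mod_two_eq_zero_or_one n with he | ho
  · omega
  · obtain ⟨c, hc⟩ : ∃ c, n ^ 2 = 2 * c + 1 := by
      obtain ⟨m, rfl⟩ : ∃ m, n = 2 * m + 1 := ⟨n / 2, by omega⟩
      exact ⟨2 * m ^ 2 + 2 * m, by ring⟩
    omega

lemma destroys_opt (n : ℕ) : Destroys n (opt n) := by
  intro a b k hk ha hb
  by_contra hno
  push Not at hno
  have h1 : ∀ i < k, ¬ Ph (2 * (n / 2)) (a + i) b := fun i hi h =>
    hno _ (mem_opt_h.2 ⟨by omega, by omega, h⟩) (mem_square.2 ⟨i, hi, Or.inl rfl⟩)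
  have h2 : ∀ i < k, ¬ Ph (2 * (n / 2)) (a + i) (b + k) := fun i hi h =>
    hno _ (mem_opt_h.2 ⟨by omega, by omega, h⟩) (mem_square.2 ⟨i, hi, Or.inr (Or.inl rfl)⟩)
  have h3 : ∀ i < k, ¬ Pv (2 * (n / 2)) a (b + i) := fun i hi h =>
    hno _ (mem_opt_v.2 ⟨by omega, by omega, h⟩)
      (mem_square.2 ⟨i, hi, Or.inr (Or.inr (Or.inl rfl))⟩)
  have h4 : ∀ i < k, ¬ Pv (2 * (n / 2)) (a + k) (b + i) := fun i hi h =>
    hno _ (mem_opt_v.2 ⟨by omega, by omega, h⟩)
      (mem_square.2 ⟨i, hi, Or.inr (Or.inr (Or.inr rfl))⟩)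
  clear hno
  have hN : 2 * (n / 2) ≤ n ∧ n ≤ 2 * (n / 2) + 1 := by omega
  generalize n / 2 = m at *
  rcases Nat.lt_or_ge k 2 with hk1 | hk2
  · have hk' : k = 1 := by omega
    subst hk'
    have g1 := h1 0 (by omega)
    have g2 := h2 0 (by omega)
    have g3 := h3 0 (by omega)
    have g4 := h4 0 (by omega)
    clear h1 h2 h3 h4
    simp only [add_zero] at g1 g2 g3 g4
    rcases Nat.mod_two_eq_zero_or_one (a + b) with h | h
    · have e2 : (a + (b + 1)) % 2 = 1 := by omega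
      have e3 : (a + 1 + b) % 2 = 1 := by omega
      simp only [Ph, Pv, h, e2, e3, zero_ne_one, one_ne_zero, false_and, true_and, or_false,
        false_or] at g1 g2 g3 g4
      omega
    · have e2 : (a + (b + 1)) % 2 = 0 := by omega
      have e3 : (a + 1 + b) % 2 = 0 := by omega
      simp only [Ph, Pv, h, e2, e3, zero_ne_one, one_ne_zero, false_and, true_and, or_false,
        false_or] at g1 g2 g3 g4
      omega
  · have hBL : (a = b ∧ 2 * a + 2 ≤ 2 * m) ∨ (a = b + 1 ∧ 2 * b + 4 ≤ 2 * m) := by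
      rcases Nat.mod_two_eq_zero_or_one (a + b) with h | h
      · have g1 : ¬ (2 * m ≤ a + 0 + b ∧ b ≤ a + 0) := fun g =>
          h1 0 (by omega) (Or.inr ⟨by omega, g⟩)
        have g2 : ¬ (a + 1 + 1 ≤ b ∧ a + 1 + b ≤ 2 * m + 1) := fun g =>
          h1 1 (by omega) (Or.inl ⟨by omega, g⟩)
        have g3 : ¬ (b + 0 + 2 ≤ a ∧ a + (b + 0) + 2 ≤ 2 * m) := fun g =>
          h3 0 (by omega) (Or.inl ⟨by omega, g⟩)
        have g4 : ¬ (2 * m + 3 ≤ a + (b + 1) ∧ a + 1 ≤ b + 1) := fun g =>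
          h3 1 (by omega) (Or.inr ⟨by omega, g⟩)
        clear h1 h2 h3 h4
        omega
      · have g1 : ¬ (a + 0 + 1 ≤ b ∧ a + 0 + b ≤ 2 * m + 1) := fun g =>
          h1 0 (by omega) (Or.inl ⟨by omega, g⟩)
        have g2 : ¬ (2 * m ≤ a + 1 + b ∧ b ≤ a + 1) := fun g =>
          h1 1 (by omega) (Or.inr ⟨by omega, g⟩)
        have g3 : ¬ (2 * m + 3 ≤ a + (b + 0) ∧ a + 1 ≤ b + 0) := fun g =>
          h3 0 (by omega) (Or.inr ⟨by omega, g⟩)
        have g4 : ¬ (b + 1 + 2 ≤ a ∧ a + (b + 1) + 2 ≤ 2 * m) := fun g =>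
          h3 1 (by omega) (Or.inl ⟨by omega, g⟩)
        clear h1 h2 h3 h4
        omega
    rcases Nat.mod_two_eq_zero_or_one (a + b + k) with h | h
    · have g2 : ¬ (2 * m ≤ a + (k - 2) + b ∧ b ≤ a + (k - 2)) := fun g =>
        h1 (k - 2) (by omega) (Or.inr ⟨by omega, g⟩)
      have g4 : ¬ (a + 1 + 1 ≤ b + k ∧ a + 1 + (b + k) ≤ 2 * m + 1) := fun g =>
        h2 1 (by omega) (Or.inl ⟨by omega, g⟩)
      clear h1 h2 h3 h4
      omega
    · have g1 : ¬ (2 * m ≤ a + (k - 1) + b ∧ b ≤ a + (k - 1)) := fun g =>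
        h1 (k - 1) (by omega) (Or.inr ⟨by omega, g⟩)
      have g3 : ¬ (a + 0 + 1 ≤ b + k ∧ a + 0 + (b + k) ≤ 2 * m + 1) := fun g =>
        h2 0 (by omega) (Or.inl ⟨by omega, g⟩)
      clear h1 h2 h3 h4
      omega

/-- **Removing unit segments to destroy all squares.** `f(1) = 1` and `f(n) = ⌈n²/2⌉ + 1` for all
`n ≥ 2`; for `n ≥ 2` the explicit set `opt n ⊆ E_n` destroys all squares and has `f(n)` elements
(for `n = 1` any single segment does). -/
theorem result :
    (f 1 = 1 ∧ ({hs 0 0} : Finset Seg) ⊆ board 1 ∧ Destroys 1 {hs 0 0} ∧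
      ({hs 0 0} : Finset Seg).card = f 1) ∧
    ∀ n, 2 ≤ n → f n = (n ^ 2 + 1) / 2 + 1 ∧ opt n ⊆ board n ∧ Destroys n (opt n) ∧
      (opt n).card = f n := by
  have hD1 : Destroys 1 {hs 0 0} := by
    intro a b k hk ha hb
    have ha0 : a = 0 := by omega
    have hb0 : b = 0 := by omega
    subst ha0 hb0
    exact ⟨hs 0 0, by simp, mem_square.2 ⟨0, by omega, Or.inl rfl⟩⟩
  have hS1 : ({hs 0 0} : Finset Seg) ⊆ board 1 := by
    intro s hs'
    rw [mem_singleton] at hs'
    subst hs'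
    simp [board]
  have hf1 : f 1 = 1 := by
    apply le_antisymm
    · exact Nat.sInf_le ⟨{hs 0 0}, hS1, hD1, by simp⟩
    · refine le_csInf ⟨1, {hs 0 0}, hS1, hD1, by simp⟩ ?_
      rintro m ⟨R, hR, hD, rfl⟩
      obtain ⟨s, hs', -⟩ := hD 0 0 1 le_rfl le_rfl le_rfl
      exact Finset.card_pos.2 ⟨s, hs'⟩
  refine ⟨⟨hf1, hS1, hD1, by rw [hf1]; simp⟩, fun n hn => ?_⟩
  have hf : f n = (n ^ 2 + 1) / 2 + 1 := by
    apply le_antisymm
    · exact Nat.sInf_le ⟨opt n, opt_sub n, destroys_opt n, card_opt hn⟩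
    · refine le_csInf ⟨_, opt n, opt_sub n, destroys_opt n, card_opt hn⟩ ?_
      rintro m ⟨R, hR, hD, rfl⟩
      exact lower hn hR hD
  exact ⟨hf, opt_sub n, destroys_opt n, by rw [hf, card_opt hn]⟩

end Pool.Agent.Results.MP_5493ad_co.AllBoards
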